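import Pool.Agent.H11.LD.Targets

/-!
# Board ldm_modules, row UBA: from the structure to the form `FF`
-/

set_option autoImplicit false

open Finset Classical

namespace Pool.Agent.H63.LD

open Pool.Agent.H11.LD Pool.Agent.H9.Lap

namespace UBA

theorem sumV {V : Type} [Fintype V] {g m : ℕ} (e : V ≃ Fin g × Fin m) (F : ℕ → ℕ → ℝ) :
    ∑ v, F ((e v).1 : ℕ) ((e v).2 : ℕ) = ∑ i ∈ range g, ∑ j ∈ range m, F i j := by
  rw [Equiv.sum_comp e (fun p : Fin g × Fin m => F (p.1 : ℕ) (p.2 : ℕ)), Fintype.sum_prod_type,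
    ← Fin.sum_univ_eq_sum_range (fun i => ∑ j ∈ range m, F i j) g]
  refine Finset.sum_congr rfl fun i _ => ?_
  exact Fin.sum_univ_eq_sum_range (fun j => F (i : ℕ) j) m

/-- star edges -/
theorem sumS (g m : ℕ) (hm : 3 ≤ m) (x : ℕ → ℕ → ℝ) :
    ∑ i ∈ range g, ∑ j ∈ range m, ∑ i' ∈ range g, ∑ j' ∈ range m,
      (if i' = i ∧ j = 0 ∧ j' ≠ 0 then (x i j - x i' j') ^ 2 else 0) =
    ∑ i ∈ range g, ∑ j ∈ (range m).erase 0, (x i 0 - x i j) ^ 2 := by
  refine Finset.sum_congr rfl fun i hi => ?_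
  rw [Finset.sum_eq_single 0]
  · rw [Finset.sum_eq_single i]
    · simp only [true_and]
      rw [← Finset.sum_filter, Finset.filter_ne']
    · intro i' _ hi'
      exact Finset.sum_eq_zero fun j' _ => if_neg fun h => hi' h.1
    · intro h; exact absurd hi h
  · intro j _ hj
    exact Finset.sum_eq_zero fun i' _ => Finset.sum_eq_zero fun j' _ => if_neg fun h => hj h.2.1
  · intro h
    exact absurd (Finset.mem_range.mpr (by omega)) h

/-- leaves which are not ends of links -/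
theorem sumO (g m : ℕ) (P : Prop) (x : ℕ → ℕ → ℝ) :
    ∑ i ∈ range g, ∑ j ∈ range m, ∑ i' ∈ range g, ∑ j' ∈ range m,
      (if i' = i ∧ j ∈ ordL g m P i ∧ j' ∈ ordL g m P i then (x i j - x i' j') ^ 2 else 0) =
    ∑ i ∈ range g, ∑ j ∈ ordL g m P i, ∑ j' ∈ ordL g m P i, (x i j - x i j') ^ 2 := by
  have hsub : ∀ i, (range m).filter (fun j => j ∈ ordL g m P i) = ordL g m P i := by
    intro i
    ext j
    simp only [Finset.mem_filter]
    exact ⟨fun h => h.2, fun h => ⟨(Finset.mem_filter.mp h).1, h⟩⟩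
  refine Finset.sum_congr rfl fun i hi => ?_
  rw [← hsub i, Finset.sum_filter, hsub i]
  refine Finset.sum_congr rfl fun j _ => ?_
  rw [Finset.sum_eq_single i]
  · by_cases hj : j ∈ ordL g m P i
    · simp only [hj, true_and, if_true]
      rw [← Finset.sum_filter, hsub i]
    · simp only [hj, false_and, and_false, if_false, Finset.sum_const_zero]
  · intro i' _ hi'
    exact Finset.sum_eq_zero fun j' _ => if_neg fun h => hi' h.1
  · intro h; exact absurd hi h

/-- links -/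
theorem sumL (g m : ℕ) (hg : 2 ≤ g) (hm : 3 ≤ m) (x : ℕ → ℕ → ℝ) :
    ∑ i ∈ range g, ∑ j ∈ range m, ∑ i' ∈ range g, ∑ j' ∈ range m,
      (if j = 1 ∧ j' = 2 ∧ i' = i + 1 then (x i j - x i' j') ^ 2 else 0) =
    ∑ i ∈ range (g - 1), (x i 1 - x (i + 1) 2) ^ 2 := by
  obtain ⟨k, rfl⟩ : ∃ k, g = k + 1 := ⟨g - 1, by omega⟩
  rw [Finset.sum_range_succ, Nat.add_sub_cancel]
  have hlast : ∑ j ∈ range m, ∑ i' ∈ range (k + 1), ∑ j' ∈ range m,
      (if j = 1 ∧ j' = 2 ∧ i' = k + 1 then (x k j - x i' j') ^ 2 else 0) = 0 := by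
    refine Finset.sum_eq_zero fun j _ => Finset.sum_eq_zero fun i' hi' =>
      Finset.sum_eq_zero fun j' _ => if_neg fun h => ?_
    have := Finset.mem_range.mp hi'
    omega
  rw [hlast, add_zero]
  refine Finset.sum_congr rfl fun i hi => ?_
  have hi1 := Finset.mem_range.mp hi
  rw [Finset.sum_eq_single 1]
  · rw [Finset.sum_eq_single (i + 1)]
    · rw [Finset.sum_eq_single 2]
      · rw [if_pos ⟨rfl, rfl, rfl⟩]
      · intro j' _ hj'
        exact if_neg fun h => hj' h.2.1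
      · intro h; exact absurd (Finset.mem_range.mpr (by omega)) h
    · intro i' _ hi'
      exact Finset.sum_eq_zero fun j' _ => if_neg fun h => hi' h.2.2
    · intro h; exact absurd (Finset.mem_range.mpr (by omega)) h
  · intro j _ hj
    exact Finset.sum_eq_zero fun i' _ => Finset.sum_eq_zero fun j' _ => if_neg fun h => hj h.1
  · intro h; exact absurd (Finset.mem_range.mpr (by omega)) h

/-- one ordered pair of positions -/
theorem sumT (g m a b c d : ℕ) (ha : a < g) (hb : b < m) (hc : c < g) (hd : d < m) (R : Prop)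
    (x : ℕ → ℕ → ℝ) :
    ∑ i ∈ range g, ∑ j ∈ range m, ∑ i' ∈ range g, ∑ j' ∈ range m,
      (if R ∧ i = a ∧ j = b ∧ i' = c ∧ j' = d then (x i j - x i' j') ^ 2 else 0) =
    if R then (x a b - x c d) ^ 2 else 0 := by
  rw [Finset.sum_eq_single a]
  · rw [Finset.sum_eq_single b]
    · rw [Finset.sum_eq_single c]
      · rw [Finset.sum_eq_single d]
        · by_cases hR : R
          · rw [if_pos ⟨hR, rfl, rfl, rfl, rfl⟩, if_pos hR]
          · rw [if_neg (fun h => hR h.1), if_neg hR]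
        · intro j' _ hj'
          exact if_neg fun h => hj' h.2.2.2.2
        · intro h; exact absurd (Finset.mem_range.mpr hd) h
      · intro i' _ hi'
        exact Finset.sum_eq_zero fun j' _ => if_neg fun h => hi' h.2.2.2.1
      · intro h; exact absurd (Finset.mem_range.mpr hc) h
    · intro j _ hj
      exact Finset.sum_eq_zero fun i' _ => Finset.sum_eq_zero fun j' _ =>
        if_neg fun h => hj h.2.2.1
    · intro h; exact absurd (Finset.mem_range.mpr hb) h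
  · intro i _ hi
    exact Finset.sum_eq_zero fun j _ => Finset.sum_eq_zero fun i' _ =>
      Finset.sum_eq_zero fun j' _ => if_neg fun h => hi h.2.1
  · intro h; exact absurd (Finset.mem_range.mpr ha) h

/-- swapping the two positions -/
theorem swap4 (g m : ℕ) (H : ℕ → ℕ → ℕ → ℕ → ℝ) :
    ∑ i ∈ range g, ∑ j ∈ range m, ∑ i' ∈ range g, ∑ j' ∈ range m, H i j i' j' =
    ∑ i ∈ range g, ∑ j ∈ range m, ∑ i' ∈ range g, ∑ j' ∈ range m, H i' j' i j := by
  have key : ∀ K : ℕ → ℕ → ℕ → ℕ → ℝ,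
      ∑ i ∈ range g, ∑ j ∈ range m, ∑ i' ∈ range g, ∑ j' ∈ range m, K i j i' j' =
      ∑ a ∈ range g ×ˢ range m, ∑ b ∈ range g ×ˢ range m, K a.1 a.2 b.1 b.2 := by
    intro K
    rw [Finset.sum_product]
    refine Finset.sum_congr rfl fun i _ => Finset.sum_congr rfl fun j _ => ?_
    rw [Finset.sum_product]
  rw [key, key (fun i j i' j' => H i' j' i j), Finset.sum_comm]

/-- the sum of the indicator bounds -/
noncomputable def one (g m : ℕ) (P Q : Prop) (x : ℕ → ℕ → ℝ) (i j i' j' : ℕ) : ℝ :=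
  (if i' = i ∧ j = 0 ∧ j' ≠ 0 then (x i j - x i' j') ^ 2 else 0) +
  (if i' = i ∧ j ∈ ordL g m P i ∧ j' ∈ ordL g m P i then (x i j - x i' j') ^ 2 else 0) / 2 +
  (if j = 1 ∧ j' = 2 ∧ i' = i + 1 then (x i j - x i' j') ^ 2 else 0) +
  (if P ∧ i = g - 1 ∧ j = 1 ∧ i' = 0 ∧ j' = 2 then (x i j - x i' j') ^ 2 else 0) +
  (if Q ∧ i = g / 2 ∧ j = 1 ∧ i' = g / 2 ∧ j' = 2 then (x i j - x i' j') ^ 2 else 0)

theorem sum_one (g m : ℕ) (P Q : Prop) (x : ℕ → ℕ → ℝ) (hg : 2 ≤ g) (hm : 3 ≤ m) :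
    ∑ i ∈ range g, ∑ j ∈ range m, ∑ i' ∈ range g, ∑ j' ∈ range m, one g m P Q x i j i' j' =
      FF g m P Q x := by
  unfold one FF
  simp only [Finset.sum_add_distrib, ← Finset.sum_div]
  rw [sumS g m hm x, sumO g m P x, sumL g m hg hm x,
    sumT g m (g - 1) 1 0 2 (by omega) (by omega) (by omega) (by omega) P x,
    sumT g m (g / 2) 1 (g / 2) 2 (by omega) (by omega) (by omega) (by omega) Q x]

theorem one_nonneg (g m : ℕ) (P Q : Prop) (x : ℕ → ℕ → ℝ) (i j i' j' : ℕ) :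
    0 ≤ one g m P Q x i j i' j' := by
  unfold one
  have h := sq_nonneg (x i j - x i' j')
  have key : ∀ (R : Prop) [Decidable R], 0 ≤ (if R then (x i j - x i' j') ^ 2 else 0) := by
    intro R _
    by_cases hR : R
    · rw [if_pos hR]; exact h
    · rw [if_neg hR]
  have h1 := key (i' = i ∧ j = 0 ∧ j' ≠ 0)
  have h2 := key (i' = i ∧ j ∈ ordL g m P i ∧ j' ∈ ordL g m P i)
  have h3 := key (j = 1 ∧ j' = 2 ∧ i' = i + 1)
  have h4 := key (P ∧ i = g - 1 ∧ j = 1 ∧ i' = 0 ∧ j' = 2)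
  have h5 := key (Q ∧ i = g / 2 ∧ j = 1 ∧ i' = g / 2 ∧ j' = 2)
  linarith

/-- a lower bound for `one` by each of its parts -/
theorem one_ge (g m : ℕ) (P Q : Prop) (x : ℕ → ℕ → ℝ) (i j i' j' : ℕ)
    (h : (i' = i ∧ j = 0 ∧ j' ≠ 0) ∨ (j = 1 ∧ j' = 2 ∧ i' = i + 1) ∨
      (P ∧ i = g - 1 ∧ j = 1 ∧ i' = 0 ∧ j' = 2) ∨
      (Q ∧ i = g / 2 ∧ j = 1 ∧ i' = g / 2 ∧ j' = 2)) :
    (x i j - x i' j') ^ 2 ≤ one g m P Q x i j i' j' := by
  unfold one
  have hs := sq_nonneg (x i j - x i' j')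
  have key : ∀ (R : Prop) [Decidable R], 0 ≤ (if R then (x i j - x i' j') ^ 2 else 0) := by
    intro R _
    by_cases hR : R
    · rw [if_pos hR]; exact hs
    · rw [if_neg hR]
  have h1 := key (i' = i ∧ j = 0 ∧ j' ≠ 0)
  have h2 := key (i' = i ∧ j ∈ ordL g m P i ∧ j' ∈ ordL g m P i)
  have h3 := key (j = 1 ∧ j' = 2 ∧ i' = i + 1)
  have h4 := key (P ∧ i = g - 1 ∧ j = 1 ∧ i' = 0 ∧ j' = 2)
  have h5 := key (Q ∧ i = g / 2 ∧ j = 1 ∧ i' = g / 2 ∧ j' = 2)
  rcases h with h | h | h | h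
  · rw [if_pos h] at h1 ⊢; linarith
  · rw [if_pos h] at h3 ⊢; linarith
  · rw [if_pos h] at h4 ⊢; linarith
  · rw [if_pos h] at h5 ⊢; linarith

theorem one_ord (g m : ℕ) (P Q : Prop) (x : ℕ → ℕ → ℝ) (i j i' j' : ℕ)
    (h : i' = i ∧ j ∈ ordL g m P i ∧ j' ∈ ordL g m P i) :
    (x i j - x i' j') ^ 2 / 2 ≤ one g m P Q x i j i' j' := by
  unfold one
  have hs := sq_nonneg (x i j - x i' j')
  have key : ∀ (R : Prop) [Decidable R], 0 ≤ (if R then (x i j - x i' j') ^ 2 else 0) := by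
    intro R _
    by_cases hR : R
    · rw [if_pos hR]; exact hs
    · rw [if_neg hR]
  have h1 := key (i' = i ∧ j = 0 ∧ j' ≠ 0)
  have h3 := key (j = 1 ∧ j' = 2 ∧ i' = i + 1)
  have h4 := key (P ∧ i = g - 1 ∧ j = 1 ∧ i' = 0 ∧ j' = 2)
  have h5 := key (Q ∧ i = g / 2 ∧ j = 1 ∧ i' = g / 2 ∧ j' = 2)
  rw [if_pos h]; linarith

end UBA

open UBA

theorem pf_UBA : T_UBA := by
  intro V _ G g m e P Q hg hm hP hQ hS f x hx
  constructor
  swap
  · rw [← sumV e (fun i j => x i j ^ 2)]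
    exact Finset.sum_congr rfl fun v _ => by rw [hx v]
  -- the pointwise bound
  have hpt : ∀ v w : V, G.Adj v w → (f v - f w) ^ 2 ≤
      one g m P Q x (e v).1 (e v).2 (e w).1 (e w).2 +
      one g m P Q x (e w).1 (e w).2 (e v).1 (e v).2 := by
    intro v w hvw
    have hne : v ≠ w := hvw.ne
    have hsw : (x (e w).1 (e w).2 - x (e v).1 (e v).2) ^ 2 =
        (x (e v).1 (e v).2 - x (e w).1 (e w).2) ^ 2 := by ring
    have n1 := one_nonneg g m P Q x (e v).1 (e v).2 (e w).1 (e w).2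
    have n2 := one_nonneg g m P Q x (e w).1 (e w).2 (e v).1 (e v).2
    rw [← hx v, ← hx w]
    have hvl := (e v).2.isLt
    have hwl := (e w).2.isLt
    have hvg := (e v).1.isLt
    have hwg := (e w).1.isLt
    by_cases hc : (e v).1 = (e w).1
    · have hc' : ((e v).1 : ℕ) = ((e w).1 : ℕ) := congrArg Fin.val hc
      have hj : ((e v).2 : ℕ) ≠ ((e w).2 : ℕ) := by
        intro h
        exact hne (e.injective (Prod.ext hc (Fin.ext h)))
      by_cases hv0 : ((e v).2 : ℕ) = 0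
      · have := one_ge g m P Q x (e v).1 (e v).2 (e w).1 (e w).2
          (Or.inl ⟨hc'.symm, hv0, by omega⟩)
        linarith
      by_cases hw0 : ((e w).2 : ℕ) = 0
      · have := one_ge g m P Q x (e w).1 (e w).2 (e v).1 (e v).2
          (Or.inl ⟨hc', hw0, by omega⟩)
        linarith
      by_cases huv : Used g P (((e v).1 : ℕ), ((e v).2 : ℕ))
      · obtain ⟨q1, q2, q3⟩ := (hS.used v w hne hc hv0 hw0 huv).mp hvw
        have a1 : ((e v).2 : ℕ) = 1 ∨ ((e v).2 : ℕ) = 2 := by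
          rcases huv with h | h
          · exact Or.inl h.1
          · exact Or.inr h.1
        have a2 : ((e w).2 : ℕ) = 1 ∨ ((e w).2 : ℕ) = 2 := by
          rcases q3 with h | h
          · exact Or.inl h.1
          · exact Or.inr h.1
        have a3 : ((e v).1 : ℕ) = g / 2 := by omega
        rcases a1 with a1 | a1
        · have := one_ge g m P Q x (e v).1 (e v).2 (e w).1 (e w).2
            (Or.inr (Or.inr (Or.inr ⟨q1, a3, a1, by omega, by omega⟩)))
          linarith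
        · have := one_ge g m P Q x (e w).1 (e w).2 (e v).1 (e v).2
            (Or.inr (Or.inr (Or.inr ⟨q1, by omega, by omega, a3, a1⟩)))
          linarith
      by_cases huw : Used g P (((e w).1 : ℕ), ((e w).2 : ℕ))
      · obtain ⟨q1, q2, q3⟩ := (hS.used w v hne.symm hc.symm hw0 hv0 huw).mp hvw.symm
        exact absurd q3 huv
      have o1 : ((e v).2 : ℕ) ∈ ordL g m P ((e v).1 : ℕ) :=
        Finset.mem_filter.mpr ⟨Finset.mem_range.mpr hvl, hv0, huv⟩
      have o2 : ((e w).2 : ℕ) ∈ ordL g m P ((e w).1 : ℕ) :=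
        Finset.mem_filter.mpr ⟨Finset.mem_range.mpr hwl, hw0, huw⟩
      have b1 := one_ord g m P Q x (e v).1 (e v).2 (e w).1 (e w).2 ⟨hc'.symm, o1, hc' ▸ o2⟩
      have b2 := one_ord g m P Q x (e w).1 (e w).2 (e v).1 (e v).2 ⟨hc', o2, hc' ▸ o1⟩
      linarith
    · rcases (hS.link v w hc).mp hvw with h | h
      · obtain ⟨h1, h2, h3⟩ := h
        simp only at h1 h2 h3
        rcases h3 with h3 | ⟨p, h3, h4⟩
        · have := one_ge g m P Q x (e v).1 (e v).2 (e w).1 (e w).2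
            (Or.inr (Or.inl ⟨h1, h2, h3⟩))
          linarith
        · have := one_ge g m P Q x (e v).1 (e v).2 (e w).1 (e w).2
            (Or.inr (Or.inr (Or.inl ⟨p, by omega, h1, h4, h2⟩)))
          linarith
      · obtain ⟨h1, h2, h3⟩ := h
        simp only at h1 h2 h3
        rcases h3 with h3 | ⟨p, h3, h4⟩
        · have := one_ge g m P Q x (e w).1 (e w).2 (e v).1 (e v).2
            (Or.inr (Or.inl ⟨h1, h2, h3⟩))
          linarith
        · have := one_ge g m P Q x (e w).1 (e w).2 (e v).1 (e v).2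
            (Or.inr (Or.inr (Or.inl ⟨p, by omega, h1, h4, h2⟩)))
          linarith
  -- summation
  have hsum : ∑ v, ∑ w ∈ nb G v, (f v - f w) ^ 2 ≤
      ∑ v, ∑ w, (one g m P Q x (e v).1 (e v).2 (e w).1 (e w).2 +
        one g m P Q x (e w).1 (e w).2 (e v).1 (e v).2) := by
    refine Finset.sum_le_sum fun v _ => ?_
    refine (Finset.sum_le_sum (g := fun w => one g m P Q x (e v).1 (e v).2 (e w).1 (e w).2 +
        one g m P Q x (e w).1 (e w).2 (e v).1 (e v).2) fun w hw => ?_).trans ?_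
    · exact hpt v w (Finset.mem_filter.mp hw).2
    · exact Finset.sum_le_sum_of_subset_of_nonneg (Finset.subset_univ _)
        (fun w _ _ => add_nonneg (one_nonneg _ _ _ _ _ _ _ _ _) (one_nonneg _ _ _ _ _ _ _ _ _))
  have hval : ∀ H : ℕ → ℕ → ℕ → ℕ → ℝ, ∑ v, ∑ w, H (e v).1 (e v).2 (e w).1 (e w).2 =
      ∑ i ∈ range g, ∑ j ∈ range m, ∑ i' ∈ range g, ∑ j' ∈ range m, H i j i' j' := by
    intro H
    rw [← sumV e (fun i j => ∑ i' ∈ range g, ∑ j' ∈ range m, H i j i' j')]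
    exact Finset.sum_congr rfl fun v _ => sumV e (fun i' j' => H (e v).1 (e v).2 i' j')
  have e1 := hval (one g m P Q x)
  have e2 := hval (fun i j i' j' => one g m P Q x i' j' i j)
  rw [← swap4 g m (one g m P Q x)] at e2
  rw [sum_one g m P Q x hg hm] at e1 e2
  simp only [Finset.sum_add_distrib] at hsum
  rw [e1, e2] at hsum
  unfold qf
  linarith

end Pool.Agent.H63.LD
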